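import Pool.Agent.Work.MP_db9399_cg_helper68.TOOL
import Pool.Agent.Work.MP_db9399_all_helper6.LLLI

/-!
# MP_db9399, TSPLIT, block GRP, part 1 (helper42): tests of uniform labels with three values

`lin` linear tests, `two` two-step tests for the number of the monochromatic pairs, `two2` tests for
the pairs with given labels, `lll3` local lemma.
-/

set_option autoImplicit false

namespace Pool.Agent.Work.MP_db9399_ts.helper42

open Finset Classical
open Pool.Agent.Work.MP_db9399_all (pr DepOnI PackI)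
open Pool.Agent.Work.MP_db9399_en
open Pool.Agent.Work.MP_db9399_cg.helper68

universe u v

section prob
variable {J : Type u} [Fintype J]

/-- centred indicator -/
noncomputable def ci (a : Fin 3) (w : J) (f : J → Fin 3) : ℝ := (if f w = a then 1 else 0) - 1 / 3

omit [Fintype J] in
lemma ci_dep (a : Fin 3) (w : J) : DepOnI {w} (ci (J := J) a w) := fun f g h => by
  simp only [ci, h w (mem_singleton_self w)]

lemma ci_ex (a : Fin 3) (w : J) : ex (ci (J := J) a w) = 0 := by
  have h := ex_coord (J := J) (M := 3) w (fun i => (if i = a then (1 : ℝ) else 0) - 1 / 3)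
  have h2 : ex (ci (J := J) a w) =
      ex (fun ω : J → Fin 3 => (fun i => (if i = a then (1 : ℝ) else 0) - 1 / 3) (ω w)) := rfl
  rw [h2, h]
  simp [sum_sub_distrib]

omit [Fintype J] in
lemma ci_abs (a : Fin 3) (w : J) (f : J → Fin 3) : |ci a w f| ≤ 1 := by
  unfold ci
  split_ifs <;> rw [abs_le] <;> constructor <;> norm_num

omit [Fintype J] in
lemma ci_sum (w : J) (f : J → Fin 3) : ∑ a : Fin 3, ci a w f = 0 := by
  simp [ci, sum_sub_distrib]

lemma sq_aux {t S l : ℝ} (hS : 0 < S) (ht : t = l * Real.sqrt S) : t ^ 2 / (2 * S) = l ^ 2 / 2 := by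
  rw [ht, mul_pow, Real.sq_sqrt hS.le]
  field_simp

/-- linear test -/
lemma lin (A : Finset J) (m : J → ℝ) (a : Fin 3) {S l : ℝ} (hS : 0 < S)
    (hm : ∑ v ∈ A, m v ^ 2 ≤ S) (hl : 0 ≤ l) :
    pr (fun f : J → Fin 3 => l * Real.sqrt S < |∑ v ∈ A, ci a v f * m v|) ≤
      2 * Real.exp (-(l ^ 2 / 2)) := by
  have h := tail2 (J := J) (M := 3) (by norm_num) (fun _ : J => (0 : ℝ)) A (fun v => {v})
    (fun _ => ∅) (fun v => ci a v) (fun v _ => m v) (fun v => |m v|)
    (fun v _ => ci_dep a v) (fun v _ f g _ => rfl) (fun x _ y _ hxy => disjoint_singleton.2 hxy)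
    (fun x _ y _ _ => disjoint_empty_right _) (fun v _ => ci_ex a v) (fun v _ f => ci_abs a v f)
    (fun v _ f => le_rfl) (S := S) (t := l * Real.sqrt S) hS
    (by simpa only [sq_abs] using hm) (mul_nonneg hl (Real.sqrt_nonneg _))
  rw [sq_aux hS rfl] at h
  exact h

/-- deviation of the number of the labels `a` in `A` -/
noncomputable def dv (A : Finset J) (a : Fin 3) (f : J → Fin 3) : ℝ := ∑ v ∈ A, ci a v f

omit [Fintype J] in
lemma dv_dep (A : Finset J) (a : Fin 3) : DepOnI A (dv (J := J) A a) := fun f g h => by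
  refine sum_congr rfl fun v hv => ?_
  simp only [ci, h v hv]

omit [Fintype J] in
lemma dv_sum (A : Finset J) (f : J → Fin 3) : ∑ a : Fin 3, dv A a f = 0 := by
  unfold dv
  rw [sum_comm]
  exact sum_eq_zero fun v _ => ci_sum v f

omit [Fintype J] in
lemma card_eq (A : Finset J) (a : Fin 3) (f : J → Fin 3) :
    ((A.filter fun v => f v = a).card : ℝ) = dv A a f + (A.card : ℝ) / 3 := by
  unfold dv ci
  rw [sum_sub_distrib, sum_boole, sum_const, nsmul_eq_mul]
  ring

omit [Fintype J] in
lemma dv_bd (A : Finset J) (a : Fin 3) (f : J → Fin 3) :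
    |dv A a f + (A.card : ℝ) / 3| ≤ (A.card : ℝ) := by
  rw [← card_eq, abs_of_nonneg (Nat.cast_nonneg _)]
  exact_mod_cast card_le_card (filter_subset _ _)

lemma dv_tail (A : Finset J) (a : Fin 3) {l : ℝ} (hl : 0 ≤ l) :
    pr (fun f : J → Fin 3 => l * Real.sqrt A.card < |dv A a f|) ≤
      2 * Real.exp (-(l ^ 2 / 2)) := by
  rcases A.eq_empty_or_nonempty with h | h
  · subst h
    rw [pr_zero]
    · positivity
    · intro f hf
      simp [dv] at hf
  · have hS : (0 : ℝ) < A.card := by exact_mod_cast card_pos.2 h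
    have := lin A (fun _ => 1) a hS (by simp) hl
    simp only [mul_one] at this
    exact this

/-- clipped value -/
noncomputable def cl (c x : ℝ) : ℝ := max (-c) (min c x)

lemma cl_abs {c x : ℝ} (hc : 0 ≤ c) : |cl c x| ≤ c := by
  unfold cl
  rw [abs_le]
  refine ⟨le_max_left _ _, max_le (by linarith) (min_le_left _ _)⟩

lemma cl_eq {c x : ℝ} (h : |x| ≤ c) : cl c x = x := by
  rw [abs_le] at h
  unfold cl
  rw [min_eq_right h.2, max_eq_right h.1]

variable (I : Finset J) (S : J → Finset J) (r : J → ℝ)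

/-- two-step test for one label -/
lemma two_aux (hr : ∀ w ∈ I, ∀ v ∈ S w, r v < r w) (a : Fin 3) {l : ℝ} (hl : 0 < l) :
    pr (fun f : J → Fin 3 => l ^ 2 * Real.sqrt (∑ w ∈ I, ((S w).card : ℝ)) <
      |∑ w ∈ I, ci a w f * dv (S w) a f|) ≤ (2 * I.card + 2) * Real.exp (-(l ^ 2 / 2)) := by
  obtain ⟨e, he⟩ : ∃ e, e = ∑ w ∈ I, ((S w).card : ℝ) := ⟨_, rfl⟩
  rw [← he]
  have he0 : 0 ≤ e := by
    rw [he]
    exact sum_nonneg fun _ _ => Nat.cast_nonneg _
  rcases he0.eq_or_lt with h0 | h0
  · rw [pr_zero]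
    · positivity
    · intro f hf
      have h1' : ∑ w ∈ I, ((S w).card : ℝ) = 0 := by
        rw [← he]
        exact h0.symm
      have h1 : ∀ w ∈ I, ((S w).card : ℝ) = 0 := fun w hw =>
        (sum_eq_zero_iff_of_nonneg (fun _ _ => Nat.cast_nonneg _)).1 h1' w hw
      have h2 : ∑ w ∈ I, ci a w f * dv (S w) a f = 0 := by
        refine sum_eq_zero fun w hw => ?_
        have : S w = ∅ := by
          have := h1 w hw
          exact card_eq_zero.1 (by exact_mod_cast this)
        simp [dv, this]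
      rw [h2, abs_zero] at hf
      exact absurd hf (not_lt.2 (by positivity))
  · have hS : 0 < l ^ 2 * e := by positivity
    have h := tail2 (J := J) (M := 3) (by norm_num) r I (fun v => {v}) S (fun w => ci a w)
      (fun w f => cl (l * Real.sqrt (S w).card) (dv (S w) a f))
      (fun w => l * Real.sqrt (S w).card)
      (fun v _ => ci_dep a v)
      (fun w _ => dep_comp (dv_dep (S w) a) (fun x => cl (l * Real.sqrt (S w).card) x))
      (fun x _ y _ hxy => disjoint_singleton.2 hxy)
      (fun x _ y hy hxy => disjoint_singleton_left.2 fun hxy' =>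
        absurd (hr y hy x hxy') (not_lt.2 hxy))
      (fun v _ => ci_ex a v) (fun v _ f => ci_abs a v f)
      (fun w _ f => cl_abs (by positivity)) (S := l ^ 2 * e) (t := l * Real.sqrt (l ^ 2 * e)) hS
      (by
        rw [he, mul_sum]
        refine le_of_eq (sum_congr rfl fun w _ => ?_)
        rw [mul_pow, Real.sq_sqrt (Nat.cast_nonneg _)]) (by positivity)
    rw [sq_aux hS rfl] at h
    have h2 : pr (fun f : J → Fin 3 => ∃ w ∈ I, l * Real.sqrt (S w).card < |dv (S w) a f|) ≤
        I.card * (2 * Real.exp (-(l ^ 2 / 2))) := by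
      refine (pr_ex I _).trans ((sum_le_card_nsmul _ _ _ fun w _ => dv_tail (S w) a hl.le).trans ?_)
      rw [nsmul_eq_mul]
    have h3 : pr (fun f : J → Fin 3 => l ^ 2 * Real.sqrt e < |∑ w ∈ I, ci a w f * dv (S w) a f|) ≤
        pr (fun f : J → Fin 3 => (∃ w ∈ I, l * Real.sqrt (S w).card < |dv (S w) a f|) ∨
          l * Real.sqrt (l ^ 2 * e) <
            |∑ w ∈ I, ci a w f * cl (l * Real.sqrt (S w).card) (dv (S w) a f)|) := by
      refine pr_mono fun f hf => ?_
      by_cases hex : ∃ w ∈ I, l * Real.sqrt (S w).card < |dv (S w) a f|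
      · exact Or.inl hex
      · push Not at hex
        refine Or.inr ?_
        have h4 : ∑ w ∈ I, ci a w f * cl (l * Real.sqrt (S w).card) (dv (S w) a f) =
            ∑ w ∈ I, ci a w f * dv (S w) a f :=
          sum_congr rfl fun w hw => by rw [cl_eq (hex w hw)]
        rw [h4]
        refine lt_of_le_of_lt (le_of_eq ?_) hf
        rw [Real.sqrt_mul (sq_nonneg l), Real.sqrt_sq hl.le]
        ring
    have h4 := pr_or (fun f : J → Fin 3 => ∃ w ∈ I, l * Real.sqrt (S w).card < |dv (S w) a f|)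
      (fun f => l * Real.sqrt (l ^ 2 * e) <
        |∑ w ∈ I, ci a w f * cl (l * Real.sqrt (S w).card) (dv (S w) a f)|)
    have h5 := h3.trans h4
    nlinarith [h5, h2, h]

omit [Fintype J] in
/-- the monochromatic pairs -/
lemma mono_eq (f : J → Fin 3) :
    ∑ w ∈ I, (((S w).filter fun v => f v = f w).card : ℝ) - (∑ w ∈ I, ((S w).card : ℝ)) / 3 =
      ∑ a : Fin 3, ∑ w ∈ I, ci a w f * dv (S w) a f := by
  have h1 : ∀ w ∈ I, (((S w).filter fun v => f v = f w).card : ℝ) - ((S w).card : ℝ) / 3 =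
      ∑ a : Fin 3, ci a w f * dv (S w) a f := by
    intro w _
    have h2 : (((S w).filter fun v => f v = f w).card : ℝ) = dv (S w) (f w) f + ((S w).card : ℝ) / 3 :=
      card_eq (S w) (f w) f
    have h3 : ∑ a : Fin 3, ci a w f * dv (S w) a f =
        ∑ a : Fin 3, (if f w = a then 1 else 0) * dv (S w) a f := by
      have : ∀ a : Fin 3, ci a w f * dv (S w) a f =
          (if f w = a then 1 else 0) * dv (S w) a f - 1 / 3 * dv (S w) a f := fun a => by
        unfold ci
        ring
      rw [sum_congr rfl fun a _ => this a, sum_sub_distrib, ← mul_sum, dv_sum]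
      ring
    rw [h3, h2]
    simp
  rw [sum_comm, ← sum_congr rfl h1, sum_sub_distrib, sum_div]

/-- **the number of the monochromatic pairs** -/
theorem two (hr : ∀ w ∈ I, ∀ v ∈ S w, r v < r w) {l : ℝ} (hl : 0 < l) :
    pr (fun f : J → Fin 3 => ¬ (|∑ w ∈ I, (((S w).filter fun v => f v = f w).card : ℝ) -
      (∑ w ∈ I, ((S w).card : ℝ)) / 3| ≤ 3 * (l ^ 2 * Real.sqrt (∑ w ∈ I, ((S w).card : ℝ))))) ≤
      (6 * I.card + 6) * Real.exp (-(l ^ 2 / 2)) := by
  have hmono := mono_eq I S
  have haux := fun a => two_aux I S r hr a hl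
  obtain ⟨e, he⟩ : ∃ e, e = ∑ w ∈ I, ((S w).card : ℝ) := ⟨_, rfl⟩
  rw [← he] at hmono haux ⊢
  have h1 := pr_ex' (univ : Finset (Fin 3))
    (fun a (f : J → Fin 3) => l ^ 2 * Real.sqrt e < |∑ w ∈ I, ci a w f * dv (S w) a f|)
    (fun f : J → Fin 3 => ¬ (|∑ w ∈ I, (((S w).filter fun v => f v = f w).card : ℝ) - e / 3| ≤
      3 * (l ^ 2 * Real.sqrt e))) (fun f hf => by
      by_contra hcon
      push Not at hcon
      refine hf ?_
      rw [hmono]
      refine (abs_sum_le_sum_abs _ _).trans ?_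
      refine (sum_le_sum fun a ha => hcon a ha).trans ?_
      rw [sum_const, card_univ, Fintype.card_fin, nsmul_eq_mul]
      norm_num)
  refine h1.trans ?_
  refine (sum_le_sum fun a _ => haux a).trans ?_
  rw [sum_const, card_univ, Fintype.card_fin, nsmul_eq_mul]
  refine le_of_eq ?_
  push_cast
  ring

/-- pairs with given labels -/
theorem two2 (hr : ∀ w ∈ I, ∀ v ∈ S w, r v < r w) {t l : ℝ} (hl : 0 ≤ l)
    (ht1 : ∀ w ∈ I, ((S w).card : ℝ) ≤ t) (ht2 : ∀ v, ((I.filter fun w => v ∈ S w).card : ℝ) ≤ t) :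
    pr (fun f : J → Fin 3 => ¬ ∀ a a', |∑ w ∈ I.filter (fun w => f w = a'),
      (((S w).filter fun v => f v = a).card : ℝ) - (∑ w ∈ I, ((S w).card : ℝ)) / 9| ≤
      2 * (l * Real.sqrt (t * ∑ w ∈ I, ((S w).card : ℝ)))) ≤ 36 * Real.exp (-(l ^ 2 / 2)) := by
  obtain ⟨e, he⟩ : ∃ e, e = ∑ w ∈ I, ((S w).card : ℝ) := ⟨_, rfl⟩
  rw [← he]
  have he0 : 0 ≤ e := by
    rw [he]
    exact sum_nonneg fun _ _ => Nat.cast_nonneg _
  have hE : 0 ≤ Real.exp (-(l ^ 2 / 2)) := (Real.exp_pos _).le
  rcases he0.eq_or_lt with h0 | h0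
  · rw [pr_zero]
    · positivity
    · intro f hf
      refine hf fun a a' => ?_
      have h1' : ∑ w ∈ I, ((S w).card : ℝ) = 0 := by
        rw [← he]
        exact h0.symm
      have h1 : ∀ w ∈ I, ((S w).card : ℝ) = 0 := fun w hw =>
        (sum_eq_zero_iff_of_nonneg (fun _ _ => Nat.cast_nonneg _)).1 h1' w hw
      have h2 : ∑ w ∈ I.filter (fun w => f w = a'), (((S w).filter fun v => f v = a).card : ℝ) =
          0 := by
        refine sum_eq_zero fun w hw => ?_
        have : S w = ∅ := by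
          have := h1 w (mem_filter.1 hw).1
          exact card_eq_zero.1 (by exact_mod_cast this)
        simp [this]
      rw [h2, ← h0]
      simp
  · -- `t > 0`
    obtain ⟨w0, hw0, hw0'⟩ : ∃ w ∈ I, 0 < ((S w).card : ℝ) := by
      by_contra hcon
      push Not at hcon
      exact absurd h0 (not_lt.2 (by rw [he]; exact sum_nonpos hcon))
    have ht : 0 < t := hw0'.trans_le (ht1 w0 hw0)
    have hSe : 0 < t * e := by positivity
    -- first part
    have hA : ∀ a a' : Fin 3, pr (fun f : J → Fin 3 => l * Real.sqrt (t * e) <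
        |∑ w ∈ I, ci a' w f * (dv (S w) a f + ((S w).card : ℝ) / 3)|) ≤
          2 * Real.exp (-(l ^ 2 / 2)) := by
      intro a a'
      have h := tail2 (J := J) (M := 3) (by norm_num) r I (fun v => {v}) S (fun w => ci a' w)
        (fun w f => dv (S w) a f + ((S w).card : ℝ) / 3) (fun w => ((S w).card : ℝ))
        (fun v _ => ci_dep a' v)
        (fun w _ => dep_comp (dv_dep (S w) a) (fun x => x + ((S w).card : ℝ) / 3))
        (fun x _ y _ hxy => disjoint_singleton.2 hxy)
        (fun x _ y hy hxy => disjoint_singleton_left.2 fun hxy' =>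
          absurd (hr y hy x hxy') (not_lt.2 hxy))
        (fun v _ => ci_ex a' v) (fun v _ f => ci_abs a' v f)
        (fun w _ f => dv_bd _ _ _) (S := t * e) (t := l * Real.sqrt (t * e)) hSe
        (by
          rw [he, mul_sum]
          refine sum_le_sum fun w hw => ?_
          have := ht1 w hw
          have h0 : (0 : ℝ) ≤ ((S w).card : ℝ) := Nat.cast_nonneg _
          nlinarith) (by positivity)
      rw [sq_aux hSe rfl] at h
      exact h
    -- second part
    have hsum : ∀ (a : Fin 3) (f : J → Fin 3), ∑ w ∈ I, dv (S w) a f =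
        ∑ v, ci a v f * ((I.filter fun w => v ∈ S w).card : ℝ) := by
      intro a f
      unfold dv
      have h1 : ∀ w ∈ I, ∑ v ∈ S w, ci a v f = ∑ v, if v ∈ S w then ci a v f else 0 := by
        intro w _
        rw [← sum_filter, filter_univ_mem]
      rw [sum_congr rfl h1, sum_comm]
      refine sum_congr rfl fun v _ => ?_
      rw [← sum_filter, sum_const, nsmul_eq_mul, mul_comm]
    have hcount : ∑ v : J, ((I.filter fun w => v ∈ S w).card : ℝ) = e := by
      rw [he]
      have h1 : ∑ v : J, (I.filter fun w => v ∈ S w).card = ∑ w ∈ I, (S w).card := by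
        have h2 : ∀ v : J, (I.filter fun w => v ∈ S w).card = ∑ w ∈ I, if v ∈ S w then 1 else 0 :=
          fun v => by rw [card_filter]
        rw [sum_congr rfl fun v _ => h2 v, sum_comm]
        refine sum_congr rfl fun w _ => ?_
        rw [← card_filter]
        congr 1
        exact filter_univ_mem (S w)
      exact_mod_cast h1
    have hB : ∀ a : Fin 3, pr (fun f : J → Fin 3 => l * Real.sqrt (t * e) <
        |∑ w ∈ I, dv (S w) a f|) ≤ 2 * Real.exp (-(l ^ 2 / 2)) := by
      intro a
      have h := lin (J := J) univ (fun v => ((I.filter fun w => v ∈ S w).card : ℝ)) a hSe (by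
        rw [← hcount, mul_sum]
        refine sum_le_sum fun v _ => ?_
        have := ht2 v
        have h0 : (0 : ℝ) ≤ ((I.filter fun w => v ∈ S w).card : ℝ) := Nat.cast_nonneg _
        nlinarith) hl
      simpa only [hsum a] using h
    -- union
    have key := pr_ex' (univ : Finset (Fin 3 × Fin 3))
      (fun p (f : J → Fin 3) => l * Real.sqrt (t * e) <
        |∑ w ∈ I, ci p.2 w f * (dv (S w) p.1 f + ((S w).card : ℝ) / 3)| ∨
        l * Real.sqrt (t * e) < |∑ w ∈ I, dv (S w) p.1 f|)
      (fun f : J → Fin 3 => ¬ ∀ a a', |∑ w ∈ I.filter (fun w => f w = a'),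
        (((S w).filter fun v => f v = a).card : ℝ) - e / 9| ≤
        2 * (l * Real.sqrt (t * e))) (fun f hf => by
        by_contra hcon
        push Not at hcon
        refine hf fun a a' => ?_
        obtain ⟨h1, h2⟩ := hcon (a, a') (mem_univ _)
        simp only at h1 h2
        have h3 : ∑ w ∈ I.filter (fun w => f w = a'), (((S w).filter fun v => f v = a).card : ℝ) =
            ∑ w ∈ I, ci a' w f * (dv (S w) a f + ((S w).card : ℝ) / 3) +
              1 / 3 * ∑ w ∈ I, dv (S w) a f + e / 9 := by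
          rw [he, sum_filter, mul_sum, sum_div, ← sum_add_distrib, ← sum_add_distrib]
          refine sum_congr rfl fun w _ => ?_
          rw [card_eq]
          unfold ci
          split_ifs <;> ring
        rw [h3, add_sub_cancel_right]
        refine (abs_add_le _ _).trans ?_
        rw [abs_mul, abs_of_pos (by norm_num : (0 : ℝ) < 1 / 3)]
        have h4 : 0 ≤ l * Real.sqrt (t * e) := by positivity
        linarith)
    refine key.trans ?_
    have h5 : ∀ p ∈ (univ : Finset (Fin 3 × Fin 3)), pr (fun f : J → Fin 3 =>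
        l * Real.sqrt (t * e) <
          |∑ w ∈ I, ci p.2 w f * (dv (S w) p.1 f + ((S w).card : ℝ) / 3)| ∨
        l * Real.sqrt (t * e) < |∑ w ∈ I, dv (S w) p.1 f|) ≤ 4 * Real.exp (-(l ^ 2 / 2)) := by
      intro p _
      refine (pr_or _ _).trans ?_
      have := hA p.1 p.2
      have := hB p.1
      linarith
    refine (sum_le_card_nsmul _ _ _ h5).trans ?_
    rw [nsmul_eq_mul, card_univ, Fintype.card_prod, Fintype.card_fin]
    push_cast
    linarith

/-- the numbers of the labels in a set -/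
theorem one (A : Finset J) {l : ℝ} (hl : 0 ≤ l) :
    pr (fun f : J → Fin 3 => ¬ ∀ a, |((A.filter fun v => f v = a).card : ℝ) - (A.card : ℝ) / 3| ≤
      l * Real.sqrt A.card) ≤ 6 * Real.exp (-(l ^ 2 / 2)) := by
  have key := pr_ex' (univ : Finset (Fin 3))
    (fun a (f : J → Fin 3) => l * Real.sqrt A.card < |dv A a f|)
    (fun f : J → Fin 3 => ¬ ∀ a, |((A.filter fun v => f v = a).card : ℝ) - (A.card : ℝ) / 3| ≤
      l * Real.sqrt A.card) (fun f hf => by
      by_contra hcon
      push Not at hcon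
      refine hf fun a => ?_
      rw [card_eq, add_sub_cancel_right]
      exact hcon a (mem_univ _))
  refine key.trans ((sum_le_card_nsmul _ _ _ fun a _ => dv_tail A a hl).trans ?_)
  rw [nsmul_eq_mul, card_univ, Fintype.card_fin]
  push_cast
  linarith

end prob

/-! ## logarithms -/

/-- powers beat logarithms -/
lemma log_small (A δ : ℝ) (hδ : 0 < δ) :
    ∃ d0 : ℕ, ∀ d : ℕ, d0 ≤ d → A * Real.log d ^ 2 ≤ (d : ℝ) ^ δ := by
  have h1 : (fun x : ℝ => Real.log x ^ 2) =o[Filter.atTop] fun x : ℝ => x ^ δ := by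
    have h2 := isLittleO_log_rpow_atTop (r := δ / 2) (by positivity)
    have h3 := h2.pow (n := 2) (by norm_num)
    refine h3.congr' (Filter.Eventually.of_forall fun x => rfl) ?_
    filter_upwards [Filter.eventually_ge_atTop (0 : ℝ)] with x hx
    rw [← Real.rpow_natCast, ← Real.rpow_mul hx]
    congr 1
    push_cast
    ring
  have h4 := h1.def (c := 1 / (|A| + 1)) (by positivity)
  have h5 := tendsto_natCast_atTop_atTop (R := ℝ) |>.eventually h4
  obtain ⟨d0, hd0⟩ := Filter.eventually_atTop.1 h5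
  refine ⟨d0, fun d hd => ?_⟩
  have h6 := hd0 d hd
  rw [Real.norm_eq_abs, Real.norm_eq_abs, abs_of_nonneg (sq_nonneg _),
    abs_of_nonneg (Real.rpow_nonneg (Nat.cast_nonneg _) _)] at h6
  have h7 : A * Real.log d ^ 2 ≤ (|A| + 1) * Real.log d ^ 2 :=
    mul_le_mul_of_nonneg_right (by linarith [le_abs_self A]) (sq_nonneg _)
  refine h7.trans ?_
  have h8 : (0 : ℝ) < |A| + 1 := by positivity
  calc (|A| + 1) * Real.log d ^ 2 ≤ (|A| + 1) * (1 / (|A| + 1) * (d : ℝ) ^ δ) :=
        mul_le_mul_of_nonneg_left h6 h8.le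
    _ = _ := by field_simp

/-- `exp (- log ^ 2 / 2)` beats every power -/
lemma exp_small (K : ℕ) : ∃ d0 : ℕ, ∀ d : ℕ, d0 ≤ d →
    8 * (d : ℝ) ^ K * Real.exp (-(Real.log d ^ 2 / 2)) ≤ 1 := by
  refine ⟨Nat.ceil (Real.exp (2 * K + 8)) + 1, fun d hd => ?_⟩
  have h1 : Real.exp (2 * K + 8) ≤ d :=
    (Nat.le_ceil _).trans (by exact_mod_cast (Nat.le_succ _).trans hd)
  have hd0 : (0 : ℝ) < d := (Real.exp_pos _).trans_le h1
  have h2 : (2 * K + 8 : ℝ) ≤ Real.log d := by
    rw [← Real.log_exp (2 * (K : ℝ) + 8)]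
    exact Real.log_le_log (Real.exp_pos _) h1
  have h3 : (d : ℝ) ^ K = Real.exp (K * Real.log d) := by
    rw [mul_comm, Real.exp_mul, Real.exp_log hd0, Real.rpow_natCast]
  have h4 : (8 : ℝ) ≤ Real.exp (4 * Real.log d) := by
    have h5 : (4 * Real.log d) + 1 ≤ Real.exp (4 * Real.log d) := Real.add_one_le_exp _
    have : (0 : ℝ) ≤ K := Nat.cast_nonneg _
    linarith
  rw [h3]
  calc 8 * Real.exp (K * Real.log d) * Real.exp (-(Real.log d ^ 2 / 2))
      ≤ Real.exp (4 * Real.log d) * Real.exp (K * Real.log d) *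
        Real.exp (-(Real.log d ^ 2 / 2)) := by
        refine mul_le_mul_of_nonneg_right (mul_le_mul_of_nonneg_right h4 (Real.exp_pos _).le)
          (Real.exp_pos _).le
    _ = Real.exp (4 * Real.log d + K * Real.log d + -(Real.log d ^ 2 / 2)) := by
        rw [Real.exp_add, Real.exp_add]
    _ ≤ 1 := by
        rw [Real.exp_le_one_iff]
        have : (0 : ℝ) ≤ K := Nat.cast_nonneg _
        nlinarith

/-! ## local lemma -/

/-- **local lemma** for labels with three values -/
theorem lll3 (K : ℕ) : ∃ d0 : ℕ, ∀ d : ℕ, d0 ≤ d → ∀ {J R : Type u} [Fintype J] [Fintype R]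
    (Sc : R → Finset J) (P : R → (J → Fin 3) → Prop), (∀ r, DepOnI (Sc r) (P r)) →
    (∀ r, ((Sc r).card : ℝ) ≤ (d : ℝ) ^ K) →
    (∀ y, ((univ.filter fun r => y ∈ Sc r).card : ℝ) ≤ (d : ℝ) ^ K) →
    (∀ r, pr (fun f : J → Fin 3 => ¬ P r f) ≤
      (d : ℝ) ^ K * Real.exp (-(Real.log d ^ 2 / 2))) →
    ∃ f : J → Fin 3, ∀ r, P r f := by
  obtain ⟨d0, hd0⟩ := exp_small (3 * K)
  refine ⟨d0 + 1, fun d hd J R _ _ Sc P hdep hSc hmu hpr => ?_⟩
  have hd1 : 1 ≤ d := by omega
  have hd1' : (1 : ℝ) ≤ d := by exact_mod_cast hd1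
  have hsm := hd0 d (by omega)
  set E := Real.exp (-(Real.log d ^ 2 / 2)) with hE
  have hE0 : 0 < E := Real.exp_pos _
  set s : ℝ := (d : ℝ) ^ K with hs
  have hs1 : 1 ≤ s := one_le_pow₀ hd1'
  have hs3 : (d : ℝ) ^ (3 * K) = s ^ 3 := by
    rw [hs, ← pow_mul, mul_comm]
  rw [hs3] at hsm
  have hhalf : Real.exp (1 / 2) ≤ 2 := by
    have h1 : Real.exp 1 < 3 := Real.exp_one_lt_three
    have h2 : Real.exp (1 / 2) ^ 2 = Real.exp 1 := by
      rw [← Real.exp_nat_mul]
      norm_num
    have h3 : 0 < Real.exp (1 / 2) := Real.exp_pos _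
    nlinarith
  have hsE : s * E < 1 := by
    have : s ≤ s ^ 3 := by
      calc s = s ^ 1 := (pow_one s).symm
        _ ≤ s ^ 3 := pow_le_pow_right₀ hs1 (by norm_num)
    nlinarith
  refine Pool.Agent.Work.MP_db9399_all.stmt_LLLI J 3 R (1 / (4 * s)) Sc (fun _ => 2 * (s * E)) P
    (by norm_num) (by positivity) ?_ ?_ ?_
  · rw [div_le_div_iff_of_pos_left one_pos (by positivity) (by norm_num)]
    linarith
  · intro r
    rcases (Sc r).eq_empty_or_nonempty with h | h
    · refine ⟨PEmpty, inferInstance, fun k => k.elim, fun k => k.elim, fun k => k.elim,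
        fun k => k.elim, fun k => k.elim, ?_, fun f _ => ?_⟩
      · simp only [univ_eq_empty, sum_empty]
        positivity
      · by_contra hP
        have h1 : ∀ g : J → Fin 3, ¬ P r g := fun g hg => hP (by
          rw [hdep r f g fun y hy => by rw [h] at hy; exact absurd hy (notMem_empty y)]
          exact hg)
        have h2 : pr (fun f : J → Fin 3 => ¬ P r f) = 1 := by
          have e : (fun f : J → Fin 3 => ¬ P r f) = fun _ => True := by
            funext g
            exact propext ⟨fun _ => trivial, fun _ => h1 g⟩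
          rw [e]
          unfold pr
          rw [filter_true, card_univ]
          exact div_self (card_pos (by norm_num)).ne'
        have h3 := hpr r
        rw [h2] at h3
        linarith
    · refine packI_one (by positivity) (hdep r) h (hSc r) (hpr r) ?_
      have h1 : 2 * (1 / (4 * s)) * s = 1 / 2 := by
        field_simp
        norm_num
      rw [h1]
      have : 0 ≤ s * E := by positivity
      nlinarith
  · intro y
    rw [sum_const, nsmul_eq_mul]
    have h1 := hmu y
    have h2 : 0 ≤ 2 * (s * E) := by positivity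
    refine (mul_le_mul_of_nonneg_right h1 h2).trans ?_
    rw [le_div_iff₀ (by positivity)]
    nlinarith

end Pool.Agent.Work.MP_db9399_ts.helper42
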