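import Pool.Agent.Work.MP_db9399_ts.Light
import Pool.Agent.Work.MP_db9399_ts_helper42.TWO

/-!
# MP_db9399, TSPLIT, block GRP (helper42): groups of the light vertices
-/

set_option autoImplicit false

namespace Pool.Agent.Work.MP_db9399_ts.helper42

open Finset Classical
open Pool.Agent.Work.MP_db9399_all (nb pr DepOnI PackI)
open Pool.Agent.Work.MP_db9399_clj.helper75 (OO blk nB eE)
open Pool.Agent.Work.MP_db9399_cg.helper68 (pr_mono pr_or pr_ex pr_ex' pr_zero)

universe u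

/-! ## counting -/

section counting
variable {W : Type u} [Fintype W]

lemma mem_nb {H : SimpleGraph W} {v w : W} : w ∈ nb H v ↔ H.Adj v w := by
  simp [nb]

omit [Fintype W] in
/-- counting pairs from both sides -/
lemma swap (A T : Finset W) (Q : W → W → Prop) :
    ∑ v ∈ A, (T.filter fun w => Q v w).card = ∑ w ∈ T, (A.filter fun v => Q v w).card := by
  simp only [card_filter]
  exact sum_comm

lemma inter_filter' (H : SimpleGraph W) (T : Finset W) (v : W) :
    nb H v ∩ T = T.filter fun w => H.Adj v w := by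
  ext w
  rw [mem_inter, mem_nb, mem_filter]
  exact and_comm

lemma eE_nat (H : SimpleGraph W) (A T : Finset W) :
    eE H A T = ((∑ v ∈ A, (T.filter fun w => H.Adj v w).card : ℕ) : ℝ) := by
  unfold eE
  push_cast
  exact sum_congr rfl fun v _ => by rw [inter_filter']

lemma eE_nonneg (H : SimpleGraph W) (A T : Finset W) : 0 ≤ eE H A T := by
  rw [eE_nat]
  exact Nat.cast_nonneg _

/-- the same from the other side -/
lemma eE_swap (H : SimpleGraph W) (A T : Finset W) :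
    eE H A T = ∑ w ∈ T, (((A.filter fun v => H.Adj v w).card : ℕ) : ℝ) := by
  rw [eE_nat, swap]
  push_cast
  rfl

/-- `cg` as a sum over the vertices of the second set -/
lemma cg_eq (H : SimpleGraph W) (gr : W → Fin 3) (A T : Finset W) (a a' : Fin 3) :
    eE H (A.filter fun v => gr v = a) (T.filter fun v => gr v = a') =
      ∑ w ∈ T.filter (fun w => gr w = a'),
        ((((A.filter fun v => H.Adj v w).filter fun v => gr v = a).card : ℕ) : ℝ) := by
  rw [eE_swap]
  refine sum_congr rfl fun w _ => ?_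
  rw [filter_filter, filter_filter]
  simp only [and_comm]

/-- number of the monochromatic pairs -/
noncomputable def mon (H : SimpleGraph W) (gr : W → Fin 3) (A T : Finset W) : ℝ :=
  ∑ w ∈ T, ((((A.filter fun v => H.Adj v w).filter fun v => gr v = gr w).card : ℕ) : ℝ)

omit [Fintype W] in
lemma sum_fib (gr : W → Fin 3) (T : Finset W) (F : W → ℝ) :
    ∑ a : Fin 3, ∑ w ∈ T.filter (fun w => gr w = a), F w = ∑ w ∈ T, F w := by
  rw [← sum_fiberwise_of_maps_to (s := T) (t := univ) (g := gr) (fun _ _ => mem_univ _)]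

lemma cg_tot (H : SimpleGraph W) (gr : W → Fin 3) (A T : Finset W) :
    ∑ a : Fin 3, ∑ a' : Fin 3,
      eE H (A.filter fun v => gr v = a) (T.filter fun v => gr v = a') = eE H A T := by
  have h1 : ∀ a : Fin 3, ∑ a' : Fin 3,
      eE H (A.filter fun v => gr v = a) (T.filter fun v => gr v = a') =
      ∑ w ∈ T, ((((A.filter fun v => H.Adj v w).filter fun v => gr v = a).card : ℕ) : ℝ) := by
    intro a
    simp only [cg_eq]
    exact sum_fib gr T fun w =>
      ((((A.filter fun v => H.Adj v w).filter fun v => gr v = a).card : ℕ) : ℝ)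
  rw [sum_congr rfl fun a _ => h1 a, sum_comm, eE_swap]
  refine sum_congr rfl fun w _ => ?_
  have h2 := card_eq_sum_card_fiberwise (s := A.filter fun v => H.Adj v w) (t := univ) (f := gr)
    (fun _ _ => by simp)
  rw [h2]
  push_cast
  rfl

/-- `cx` = all pairs without the monochromatic ones -/
lemma cx_eq (H : SimpleGraph W) (gr : W → Fin 3) (A T : Finset W) :
    (∑ a : Fin 3, ∑ a' : Fin 3, if a = a' then 0 else
      eE H (A.filter fun v => gr v = a) (T.filter fun v => gr v = a')) =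
      eE H A T - mon H gr A T := by
  have h1 : mon H gr A T = ∑ a : Fin 3,
      eE H (A.filter fun v => gr v = a) (T.filter fun v => gr v = a) := by
    simp only [cg_eq]
    unfold mon
    rw [← sum_fib gr T]
    refine sum_congr rfl fun a _ => sum_congr rfl fun w hw => ?_
    rw [(mem_filter.1 hw).2]
  rw [h1, ← cg_tot H gr A T, ← sum_sub_distrib]
  refine sum_congr rfl fun a _ => ?_
  have h2 : eE H (A.filter fun v => gr v = a) (T.filter fun v => gr v = a) =
      ∑ a' : Fin 3, if a = a' then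
        eE H (A.filter fun v => gr v = a) (T.filter fun v => gr v = a') else 0 := by
    simp
  rw [h2, ← sum_sub_distrib]
  refine sum_congr rfl fun a' _ => ?_
  split_ifs <;> simp

/-- rank -/
noncomputable def rk (w : W) : ℝ := ((Fintype.equivFin W w : ℕ) : ℝ)

lemma rk_inj {v w : W} (h : rk v = rk w) : v = w := by
  unfold rk at h
  have h1 : ((Fintype.equivFin W v : ℕ)) = (Fintype.equivFin W w : ℕ) := by exact_mod_cast h
  exact (Fintype.equivFin W).injective (Fin.ext h1)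

/-- half of the ordered pairs -/
lemma half (A : Finset W) (Q : W → W → Prop) (hs : ∀ v w, Q v w → Q w v) (hi : ∀ v, ¬ Q v v) :
    ∑ w ∈ A, (A.filter fun v => Q v w).card =
      2 * ∑ w ∈ A, (A.filter fun v => Q v w ∧ rk v < rk w).card := by
  have h1 : ∀ w ∈ A, (A.filter fun v => Q v w).card =
      (A.filter fun v => Q v w ∧ rk v < rk w).card +
        (A.filter fun v => Q v w ∧ rk w < rk v).card := by
    intro w _
    rw [← card_union_of_disjoint]
    · congr 1
      ext v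
      rw [mem_union, mem_filter, mem_filter, mem_filter]
      constructor
      · rintro ⟨hv, hQ⟩
        rcases lt_trichotomy (rk v) (rk w) with h | h | h
        · exact Or.inl ⟨hv, hQ, h⟩
        · exact absurd (rk_inj h ▸ hQ) (hi _)
        · exact Or.inr ⟨hv, hQ, h⟩
      · rintro (⟨hv, hQ, _⟩ | ⟨hv, hQ, _⟩) <;> exact ⟨hv, hQ⟩
    · rw [disjoint_left]
      intro v hv hv'
      exact absurd (mem_filter.1 hv).2.2 (not_lt.2 (mem_filter.1 hv').2.2.le)
  rw [sum_congr rfl h1, sum_add_distrib, two_mul]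
  congr 1
  have h2 := swap A A fun x v => Q v x ∧ rk x < rk v
  have h3 : ∑ w ∈ A, (A.filter fun v => Q v w ∧ rk w < rk v).card =
      ∑ w ∈ A, (A.filter fun v => Q w v ∧ rk v < rk w).card := by convert h2
  rw [h3]
  refine sum_congr rfl fun w _ => ?_
  congr 1
  ext v
  rw [mem_filter, mem_filter]
  exact ⟨fun h => ⟨h.1, hs _ _ h.2.1, h.2.2⟩, fun h => ⟨h.1, hs _ _ h.2.1, h.2.2⟩⟩

/-- the part of `T` with a neighbour in `A` -/
noncomputable def nT (H : SimpleGraph W) (A T : Finset W) : Finset W :=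
  T.filter fun w => ∃ v ∈ A, H.Adj v w

omit [Fintype W] in
lemma sum_nT (H : SimpleGraph W) (A T : Finset W) (F : W → ℝ)
    (hF : ∀ w, (A.filter fun v => H.Adj v w) = ∅ → F w = 0) :
    ∑ w ∈ T, F w = ∑ w ∈ nT H A T, F w := by
  symm
  refine sum_subset (filter_subset _ _) fun w hw hw' => hF w ?_
  refine filter_eq_empty_iff.2 fun v hv hvw => hw' ?_
  exact mem_filter.2 ⟨hw, v, hv, hvw⟩

/-! ## probabilities -/

/-- disjoint sets -/
lemma pr_cx (H : SimpleGraph W) (A T : Finset W) (hAT : Disjoint A T) {l : ℝ} (hl : 0 < l) :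
    pr (fun gr : W → Fin 3 => ¬ (|mon H gr A T - eE H A T / 3| ≤
      3 * (l ^ 2 * Real.sqrt (eE H A T)))) ≤
      (6 * (nT H A T).card + 6) * Real.exp (-(l ^ 2 / 2)) := by
  have h := two (nT H A T) (fun w => A.filter fun v => H.Adj v w)
    (fun w => if w ∈ T then 1 else 0) (fun w hw v hv => by
      have h1 : w ∈ T := (mem_filter.1 hw).1
      have h2 : v ∉ T := fun h => Finset.disjoint_left.1 hAT (mem_filter.1 hv).1 h
      rw [if_pos h1, if_neg h2]
      norm_num) hl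
  have e1 : eE H A T = ∑ w ∈ nT H A T, ((((A.filter fun v => H.Adj v w)).card : ℕ) : ℝ) := by
    rw [eE_swap]
    exact sum_nT H A T _ fun w hw => by rw [hw]; simp
  have e2 : ∀ gr : W → Fin 3, mon H gr A T = ∑ w ∈ nT H A T,
      ((((A.filter fun v => H.Adj v w).filter fun v => gr v = gr w).card : ℕ) : ℝ) := by
    intro gr
    unfold mon
    exact sum_nT H A T _ fun w hw => by rw [hw]; simp
  rw [← e1] at h
  simp only [e2]
  exact h

/-- one set -/
lemma pr_cx' (H : SimpleGraph W) (A : Finset W) {l : ℝ} (hl : 0 < l) :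
    pr (fun gr : W → Fin 3 => ¬ (|mon H gr A A - eE H A A / 3| ≤
      6 * (l ^ 2 * Real.sqrt (eE H A A / 2)))) ≤
      (6 * A.card + 6) * Real.exp (-(l ^ 2 / 2)) := by
  have h := two A (fun w => A.filter fun v => H.Adj v w ∧ rk v < rk w) rk
    (fun w _ v hv => (mem_filter.1 hv).2.2) hl
  have e1 : eE H A A / 2 =
      ∑ w ∈ A, ((((A.filter fun v => H.Adj v w ∧ rk v < rk w)).card : ℕ) : ℝ) := by
    rw [eE_swap]
    have := half A (fun v w => H.Adj v w) (fun v w h => h.symm) (fun v => H.loopless.irrefl v)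
    have h2 : (∑ w ∈ A, (((A.filter fun v => H.Adj v w).card : ℕ) : ℝ)) =
        2 * ∑ w ∈ A, ((((A.filter fun v => H.Adj v w ∧ rk v < rk w)).card : ℕ) : ℝ) := by
      exact_mod_cast this
    rw [h2]
    ring
  have e2 : ∀ gr : W → Fin 3, mon H gr A A = 2 * ∑ w ∈ A,
      ((((A.filter fun v => H.Adj v w ∧ rk v < rk w).filter fun v => gr v = gr w).card : ℕ) : ℝ) := by
    intro gr
    have := half A (fun v w => H.Adj v w ∧ gr v = gr w) (fun v w h => ⟨h.1.symm, h.2.symm⟩)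
      (fun v h => H.loopless.irrefl v h.1)
    unfold mon
    have h2n : ∑ w ∈ A, (A.filter fun v => H.Adj v w ∧ gr v = gr w).card =
        2 * ∑ w ∈ A, (A.filter fun v => (H.Adj v w ∧ gr v = gr w) ∧ rk v < rk w).card := by
      convert this
    have h2 : (∑ w ∈ A, (((A.filter fun v => H.Adj v w ∧ gr v = gr w).card : ℕ) : ℝ)) =
        2 * ∑ w ∈ A, ((((A.filter fun v => (H.Adj v w ∧ gr v = gr w) ∧ rk v < rk w)).card : ℕ) : ℝ) := by
      exact_mod_cast h2n
    simp only [filter_filter]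
    rw [h2]
    congr 1
    refine sum_congr rfl fun w _ => ?_
    congr 2
    ext v
    simp only [mem_filter]
    tauto
  rw [← e1] at h
  refine (pr_mono fun gr hgr hcon => hgr ?_).trans h
  rw [e2 gr]
  have h3 : 2 * ∑ w ∈ A,
      ((((A.filter fun v => H.Adj v w ∧ rk v < rk w).filter fun v => gr v = gr w).card : ℕ) : ℝ) -
      eE H A A / 3 = 2 * (∑ w ∈ A,
      ((((A.filter fun v => H.Adj v w ∧ rk v < rk w).filter fun v => gr v = gr w).card : ℕ) : ℝ) -
      eE H A A / 2 / 3) := by ring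
  rw [h3, abs_mul, abs_of_pos (by norm_num : (0 : ℝ) < 2)]
  linarith

/-- given groups -/
lemma pr_cg (H : SimpleGraph W) (A T : Finset W) (hAT : Disjoint A T) {t l : ℝ} (hl : 0 ≤ l)
    (h1 : ∀ w ∈ T, ((nb H w ∩ A).card : ℝ) ≤ t) (h2 : ∀ v ∈ A, ((nb H v ∩ T).card : ℝ) ≤ t)
    (ht : 0 ≤ t) :
    pr (fun gr : W → Fin 3 => ¬ ∀ a a', |eE H (A.filter fun v => gr v = a)
      (T.filter fun v => gr v = a') - eE H A T / 9| ≤
      2 * (l * Real.sqrt (t * eE H A T))) ≤ 36 * Real.exp (-(l ^ 2 / 2)) := by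
  have h := two2 T (fun w => A.filter fun v => H.Adj v w)
    (fun w => if w ∈ T then 1 else 0) (fun w hw v hv => by
      have h2 : v ∉ T := fun h => Finset.disjoint_left.1 hAT (mem_filter.1 hv).1 h
      rw [if_pos hw, if_neg h2]
      norm_num) (t := t) hl (fun w hw => by
      have := h1 w hw
      rw [inter_filter'] at this
      simpa only [H.adj_comm w] using this) (fun v => by
      by_cases hv : v ∈ A
      · have := h2 v hv
        rw [inter_filter'] at this
        have h3 : (T.filter fun w => v ∈ A.filter fun v => H.Adj v w) =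
            T.filter fun w => H.Adj v w := by
          ext w
          simp [hv]
        rw [h3]
        exact this
      · have h3 : (T.filter fun w => v ∈ A.filter fun v => H.Adj v w) = ∅ := by
          refine filter_eq_empty_iff.2 fun w _ h => hv (mem_filter.1 h).1
        rw [h3, card_empty, Nat.cast_zero]
        exact ht)
  rw [← eE_swap] at h
  simp only [cg_eq]
  exact h

end counting

/-! ## inequalities -/

lemma dev1 {L n : ℝ} (hL : 0 ≤ L) (hn : 144 * L ^ 2 ≤ n) : L * Real.sqrt n ≤ n / 12 := by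
  have hn0 : 0 ≤ n := le_trans (by positivity) hn
  have h1 : 12 * L ≤ Real.sqrt n := Real.le_sqrt_of_sq_le (by nlinarith)
  have h2 : Real.sqrt n * Real.sqrt n = n := Real.mul_self_sqrt hn0
  nlinarith [Real.sqrt_nonneg n]

lemma dev2 {L t e : ℝ} (hL : 0 ≤ L) (ht : 0 ≤ t) (he : 5184 * L ^ 2 * t ≤ e) :
    2 * (L * Real.sqrt (t * e)) ≤ e / 36 := by
  have he0 : 0 ≤ e := le_trans (by positivity) he
  have h1 : 72 * L * Real.sqrt (t * e) ≤ e := by
    have h2 : (72 * L * Real.sqrt (t * e)) ^ 2 ≤ e ^ 2 := by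
      rw [mul_pow, Real.sq_sqrt (mul_nonneg ht he0)]
      nlinarith
    exact abs_le_of_sq_le_sq' h2 he0 |>.2
  linarith

lemma dev3 {K n : ℝ} (hK : 0 ≤ K) (h : (16 * K) ^ 2 ≤ n) : 6 * (K * Real.sqrt n) ≤ 5 / 12 * n := by
  have hn0 : 0 ≤ n := le_trans (by positivity) h
  have h1 : 16 * K ≤ Real.sqrt n := Real.le_sqrt_of_sq_le h
  have h2 : Real.sqrt n * Real.sqrt n = n := Real.mul_self_sqrt hn0
  nlinarith [Real.sqrt_nonneg n]

lemma fin1 {e m K s r : ℝ} (hK : 0 ≤ K) (h1 : m - e / 3 ≤ 6 * (K * Real.sqrt (e / 2)))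
    (h2 : (16 * K) ^ 2 ≤ s / 2) (h3 : s ≤ r) (h4 : r ≤ e) (h5 : 0 ≤ e) : e / 4 ≤ e - m := by
  have h6 := dev3 (K := K) (n := e / 2) hK (by linarith)
  linarith

lemma fin2 {e m K s : ℝ} (hK : 0 ≤ K) (h1 : m - e / 3 ≤ 3 * (K * Real.sqrt e))
    (h2 : (16 * K) ^ 2 ≤ s / 2) (h3 : s ≤ e) (h5 : 0 < s) : e / 4 ≤ e - m := by
  have h6 := dev3 (K := K) (n := e) hK (by linarith)
  have h7 : 0 ≤ K * Real.sqrt e := mul_nonneg hK (Real.sqrt_nonneg _)
  linarith

lemma fin3 {e m K s C d y p : ℝ} (hC : 1 ≤ C) (hd : 0 ≤ d) (hK : 0 ≤ K)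
    (h1 : m - e / 3 ≤ 3 * (K * s)) (h2 : s ≤ C * d) (h3 : 1000 * (C * K) ≤ y)
    (h4 : y * d ≤ p) (h5 : 0 ≤ e) : e / 4 ≤ e - m + p := by
  have h8 : K * s ≤ K * (C * d) := mul_le_mul_of_nonneg_left h2 hK
  have hCK : 0 ≤ C * K := mul_nonneg (by linarith) hK
  have h9 : 3 * (C * K) * d ≤ y * d := mul_le_mul_of_nonneg_right (by linarith) hd
  have h10 : K * (C * d) = C * K * d := by ring
  rw [h10] at h8
  linarith

/-! ## the events -/

section main
variable {W B : Type u} [Fintype W] [Fintype B]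

/-- scope of the conditions for the block `b` -/
noncomputable def Nb (X : Dat W B) (b : B) : Finset W :=
  blk X.bl b ∪ univ.filter fun w => ∃ v ∈ blk X.bl b, X.Th.Adj v w

/-- the conditions for the block `b` in terms of the numbers -/
def PBf (X : Dat W B) (c t : ℝ) (b : B) (n : Fin 3 → ℝ) (cg : Finset W → Fin 3 → Fin 3 → ℝ)
    (cx : Finset W → ℝ) : Prop :=
  (∀ a, (X.d : ℝ) / 8 ≤ n a) ∧
  (∀ κ, (X.d : ℝ) ^ (1 - 5 * c / 8) ≤ eE X.Th (blk X.bl b) (X.far c b κ) → ∀ a a',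
    eE X.Th (blk X.bl b) (X.far c b κ) / 12 ≤ cg (X.far c b κ) a a') ∧
  (∀ κ, |cx (X.far c b κ) - 2 / 3 * eE X.Th (blk X.bl b) (X.far c b κ)| ≤
    (X.d : ℝ) ^ (1 - 2 * c / 5)) ∧
  (∀ b', X.cb b ≠ X.cb b' → (X.d : ℝ) ^ (1 - 3 * c / 4) ≤ X.e b b' → ∀ a a',
    X.e b b' / 12 ≤ cg (blk X.bl b') a a') ∧
  (∀ b', X.cb b = X.cb b' → Real.sqrt X.d ≤ X.e b b' → X.e b b' / 4 ≤ cx (blk X.bl b')) ∧
  (∀ κ, eE X.Th (blk X.bl b) (X.fas t b κ) / 4 ≤ cx (X.fas t b κ) + (X.d : ℝ) ^ (16 / 10 : ℝ))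

/-- the conditions for the block `b` -/
def PB (X : Dat W B) (c t : ℝ) (b : B) (gr : W → Fin 3) : Prop :=
  PBf X c t b (fun a => (((blk X.bl b).filter fun v => gr v = a).card : ℝ))
    (fun T a a' => X.cg gr (blk X.bl b) T a a') (fun T => X.cx gr (blk X.bl b) T)

lemma cg_congr (X : Dat W B) (b : B) (T : Finset W) {gr gr' : W → Fin 3}
    (h : ∀ v ∈ Nb X b, gr v = gr' v) (a a' : Fin 3) :
    X.cg gr (blk X.bl b) T a a' = X.cg gr' (blk X.bl b) T a a' := by
  have h1 : (blk X.bl b).filter (fun v => gr v = a) = (blk X.bl b).filter fun v => gr' v = a :=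
    filter_congr fun v hv => by rw [h v (mem_union_left _ hv)]
  unfold Dat.cg eE
  rw [h1]
  refine sum_congr rfl fun v hv => ?_
  congr 2
  ext w
  rw [mem_inter, mem_inter, mem_filter, mem_filter, mem_nb]
  constructor
  · rintro ⟨h2, h3, h4⟩
    refine ⟨h2, h3, ?_⟩
    rw [← h w (mem_union_right _ (mem_filter.2 ⟨mem_univ _, v, (mem_filter.1 hv).1, h2⟩))]
    exact h4
  · rintro ⟨h2, h3, h4⟩
    refine ⟨h2, h3, ?_⟩
    rw [h w (mem_union_right _ (mem_filter.2 ⟨mem_univ _, v, (mem_filter.1 hv).1, h2⟩))]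
    exact h4

lemma PB_dep (X : Dat W B) (c t : ℝ) (b : B) : DepOnI (Nb X b) (PB X c t b) := by
  intro gr gr' h
  unfold PB
  have h1 : (fun T a a' => X.cg gr (blk X.bl b) T a a') =
      fun T a a' => X.cg gr' (blk X.bl b) T a a' := by
    funext T a a'
    exact cg_congr X b T h a a'
  have h2 : (fun T => X.cx gr (blk X.bl b) T) = fun T => X.cx gr' (blk X.bl b) T := by
    funext T
    unfold Dat.cx
    simp only [cg_congr X b T h]
  have h3 : (fun a => (((blk X.bl b).filter fun v => gr v = a).card : ℝ)) =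
      fun a => (((blk X.bl b).filter fun v => gr' v = a).card : ℝ) := by
    funext a
    congr 2
    exact filter_congr fun v hv => by rw [h v (mem_union_left _ hv)]
  rw [h1, h2, h3]

/-- the sets which are tested against the block `b` -/
noncomputable def Fm (X : Dat W B) (c t : ℝ) (b : B) : Finset (Finset W) :=
  ({X.far c b Kd.K, X.far c b Kd.N, X.far c b Kd.S} ∪
    {X.fas t b Kd.K \ blk X.bl b, X.fas t b Kd.N \ blk X.bl b, X.fas t b Kd.S \ blk X.bl b}) ∪
    (Nb X b).image fun w => (univ.filter fun v => X.bl v = X.bl w) \ blk X.bl b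

lemma Fm_card (X : Dat W B) (c t : ℝ) (b : B) : (Fm X c t b).card ≤ 6 + (Nb X b).card := by
  unfold Fm
  refine (card_union_le _ _).trans (add_le_add ?_ card_image_le)
  refine (card_union_le _ _).trans ?_
  have h1 := card_le_three (a := X.far c b Kd.K) (b := X.far c b Kd.N) (c := X.far c b Kd.S)
  have h2 := card_le_three (a := X.fas t b Kd.K \ blk X.bl b)
    (b := X.fas t b Kd.N \ blk X.bl b) (c := X.fas t b Kd.S \ blk X.bl b)
  omega

lemma mem_blk {X : Dat W B} {b : B} {v : W} : v ∈ blk X.bl b ↔ X.bl v = some b := by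
  simp [blk]

lemma far_disj (X : Dat W B) (c : ℝ) (b : B) (κ : Kd) :
    Disjoint (blk X.bl b) (X.far c b κ) := by
  rw [disjoint_left]
  intro v hv hv'
  obtain ⟨b', h1, _, h2⟩ := (mem_filter.1 hv').2
  rw [mem_blk.1 hv] at h1
  exact h2.1 (by rw [Option.some.inj h1])

lemma Fm_disj (X : Dat W B) (c t : ℝ) (b : B) {T : Finset W} (hT : T ∈ Fm X c t b) :
    Disjoint (blk X.bl b) T := by
  unfold Fm at hT
  rw [mem_union, mem_union] at hT
  rcases hT with (hT | hT) | hT
  · simp only [mem_insert, mem_singleton] at hT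
    rcases hT with rfl | rfl | rfl <;> exact far_disj X c b _
  · simp only [mem_insert, mem_singleton] at hT
    rcases hT with rfl | rfl | rfl <;> exact disjoint_sdiff
  · obtain ⟨w, _, rfl⟩ := mem_image.1 hT
    exact disjoint_sdiff

/-- the good event -/
def Gd (X : Dat W B) (c t l t0 : ℝ) (b : B) (gr : W → Fin 3) : Prop :=
  (∀ T ∈ Fm X c t b, |mon X.Th gr (blk X.bl b) T - eE X.Th (blk X.bl b) T / 3| ≤
      3 * (l ^ 2 * Real.sqrt (eE X.Th (blk X.bl b) T)) ∧
    ((∀ w ∈ T, ((nb X.Th w ∩ blk X.bl b).card : ℝ) ≤ t0) →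
      (∀ v ∈ blk X.bl b, ((nb X.Th v ∩ T).card : ℝ) ≤ t0) → ∀ a a',
      |eE X.Th ((blk X.bl b).filter fun v => gr v = a) (T.filter fun v => gr v = a') -
        eE X.Th (blk X.bl b) T / 9| ≤ 2 * (l * Real.sqrt (t0 * eE X.Th (blk X.bl b) T)))) ∧
  |mon X.Th gr (blk X.bl b) (blk X.bl b) - eE X.Th (blk X.bl b) (blk X.bl b) / 3| ≤
    6 * (l ^ 2 * Real.sqrt (eE X.Th (blk X.bl b) (blk X.bl b) / 2)) ∧
  ∀ a, |(((blk X.bl b).filter fun v => gr v = a).card : ℝ) - ((blk X.bl b).card : ℝ) / 3| ≤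
    l * Real.sqrt ((blk X.bl b).card : ℝ)

lemma nT_sub (X : Dat W B) (b : B) (T : Finset W) : nT X.Th (blk X.bl b) T ⊆ Nb X b :=
  fun _ hw => mem_union_right _ (mem_filter.2 ⟨mem_univ _, (mem_filter.1 hw).2⟩)

/-- probability of the good event -/
lemma Gd_pr (X : Dat W B) (c t : ℝ) {l t0 s : ℝ} (hl : 0 < l) (ht0 : 0 ≤ t0) (b : B)
    (hs : ((Nb X b).card : ℝ) ≤ s) (hs1 : 1 ≤ s) :
    pr (fun gr => ¬ Gd X c t l t0 b gr) ≤ 400 * s ^ 2 * Real.exp (-(l ^ 2 / 2)) := by
  set E := Real.exp (-(l ^ 2 / 2)) with hE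
  have hE0 : 0 < E := Real.exp_pos _
  have hT : ∀ T ∈ Fm X c t b, pr (fun gr : W → Fin 3 =>
      ¬ (|mon X.Th gr (blk X.bl b) T - eE X.Th (blk X.bl b) T / 3| ≤
        3 * (l ^ 2 * Real.sqrt (eE X.Th (blk X.bl b) T)) ∧
      ((∀ w ∈ T, ((nb X.Th w ∩ blk X.bl b).card : ℝ) ≤ t0) →
        (∀ v ∈ blk X.bl b, ((nb X.Th v ∩ T).card : ℝ) ≤ t0) → ∀ a a',
        |eE X.Th ((blk X.bl b).filter fun v => gr v = a) (T.filter fun v => gr v = a') -
          eE X.Th (blk X.bl b) T / 9| ≤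
          2 * (l * Real.sqrt (t0 * eE X.Th (blk X.bl b) T))))) ≤ 48 * s * E := by
    intro T hTm
    have hdis := Fm_disj X c t b hTm
    have h1 := pr_cx X.Th (blk X.bl b) T hdis hl
    have h2 : pr (fun gr : W → Fin 3 => ¬ ((∀ w ∈ T, ((nb X.Th w ∩ blk X.bl b).card : ℝ) ≤ t0) →
        (∀ v ∈ blk X.bl b, ((nb X.Th v ∩ T).card : ℝ) ≤ t0) → ∀ a a',
        |eE X.Th ((blk X.bl b).filter fun v => gr v = a) (T.filter fun v => gr v = a') -
          eE X.Th (blk X.bl b) T / 9| ≤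
          2 * (l * Real.sqrt (t0 * eE X.Th (blk X.bl b) T)))) ≤ 36 * E := by
      by_cases hc : (∀ w ∈ T, ((nb X.Th w ∩ blk X.bl b).card : ℝ) ≤ t0) ∧
          ∀ v ∈ blk X.bl b, ((nb X.Th v ∩ T).card : ℝ) ≤ t0
      · refine (pr_mono fun gr hgr hcon => hgr fun _ _ => hcon).trans
          (pr_cg X.Th (blk X.bl b) T hdis hl.le hc.1 hc.2 ht0)
      · rw [pr_zero]
        · positivity
        · intro gr hgr
          exact hgr fun h3 h4 => absurd ⟨h3, h4⟩ hc
    have h3 : ((nT X.Th (blk X.bl b) T).card : ℝ) ≤ s :=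
      le_trans (by exact_mod_cast card_le_card (nT_sub X b T)) hs
    have h4 := pr_or (fun gr : W → Fin 3 =>
        ¬ (|mon X.Th gr (blk X.bl b) T - eE X.Th (blk X.bl b) T / 3| ≤
        3 * (l ^ 2 * Real.sqrt (eE X.Th (blk X.bl b) T))))
      (fun gr : W → Fin 3 => ¬ ((∀ w ∈ T, ((nb X.Th w ∩ blk X.bl b).card : ℝ) ≤ t0) →
        (∀ v ∈ blk X.bl b, ((nb X.Th v ∩ T).card : ℝ) ≤ t0) → ∀ a a',
        |eE X.Th ((blk X.bl b).filter fun v => gr v = a) (T.filter fun v => gr v = a') -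
          eE X.Th (blk X.bl b) T / 9| ≤
          2 * (l * Real.sqrt (t0 * eE X.Th (blk X.bl b) T))))
    refine (pr_mono fun gr hgr => ?_).trans (h4.trans ((add_le_add h1 h2).trans ?_))
    · by_contra hcon
      push Not at hcon
      exact hgr ⟨hcon.1, fun h5 h6 => hcon.2 h5 h6⟩
    · have h5 : (6 * ((nT X.Th (blk X.bl b) T).card : ℝ) + 6) * E ≤ (6 * s + 6) * E :=
        mul_le_mul_of_nonneg_right (by linarith) hE0.le
      nlinarith
  have h1 := pr_ex (Fm X c t b) (fun T (gr : W → Fin 3) =>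
      ¬ (|mon X.Th gr (blk X.bl b) T - eE X.Th (blk X.bl b) T / 3| ≤
        3 * (l ^ 2 * Real.sqrt (eE X.Th (blk X.bl b) T)) ∧
      ((∀ w ∈ T, ((nb X.Th w ∩ blk X.bl b).card : ℝ) ≤ t0) →
        (∀ v ∈ blk X.bl b, ((nb X.Th v ∩ T).card : ℝ) ≤ t0) → ∀ a a',
        |eE X.Th ((blk X.bl b).filter fun v => gr v = a) (T.filter fun v => gr v = a') -
          eE X.Th (blk X.bl b) T / 9| ≤
          2 * (l * Real.sqrt (t0 * eE X.Th (blk X.bl b) T)))))
  have h2 := (h1.trans (sum_le_card_nsmul _ _ _ hT))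
  rw [nsmul_eq_mul] at h2
  have h3 : ((Fm X c t b).card : ℝ) ≤ 7 * s := by
    have : ((Fm X c t b).card : ℝ) ≤ 6 + ((Nb X b).card : ℝ) := by exact_mod_cast Fm_card X c t b
    linarith
  have h4 := pr_cx' X.Th (blk X.bl b) hl
  have h5 := one (blk X.bl b) hl.le
  have h6 : ((blk X.bl b).card : ℝ) ≤ s :=
    le_trans (by exact_mod_cast card_le_card (subset_union_left (s₂ := univ.filter fun w =>
      ∃ v ∈ blk X.bl b, X.Th.Adj v w))) hs
  have h7 := pr_or (fun gr : W → Fin 3 => ∃ T ∈ Fm X c t b,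
      ¬ (|mon X.Th gr (blk X.bl b) T - eE X.Th (blk X.bl b) T / 3| ≤
        3 * (l ^ 2 * Real.sqrt (eE X.Th (blk X.bl b) T)) ∧
      ((∀ w ∈ T, ((nb X.Th w ∩ blk X.bl b).card : ℝ) ≤ t0) →
        (∀ v ∈ blk X.bl b, ((nb X.Th v ∩ T).card : ℝ) ≤ t0) → ∀ a a',
        |eE X.Th ((blk X.bl b).filter fun v => gr v = a) (T.filter fun v => gr v = a') -
          eE X.Th (blk X.bl b) T / 9| ≤
          2 * (l * Real.sqrt (t0 * eE X.Th (blk X.bl b) T)))))
    (fun gr => ¬ (|mon X.Th gr (blk X.bl b) (blk X.bl b) -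
        eE X.Th (blk X.bl b) (blk X.bl b) / 3| ≤
      6 * (l ^ 2 * Real.sqrt (eE X.Th (blk X.bl b) (blk X.bl b) / 2))) ∨
      ¬ ∀ a, |(((blk X.bl b).filter fun v => gr v = a).card : ℝ) -
        ((blk X.bl b).card : ℝ) / 3| ≤ l * Real.sqrt ((blk X.bl b).card : ℝ))
  have h8 := pr_or (fun gr : W → Fin 3 => ¬ (|mon X.Th gr (blk X.bl b) (blk X.bl b) -
        eE X.Th (blk X.bl b) (blk X.bl b) / 3| ≤
      6 * (l ^ 2 * Real.sqrt (eE X.Th (blk X.bl b) (blk X.bl b) / 2))))
    (fun gr => ¬ ∀ a, |(((blk X.bl b).filter fun v => gr v = a).card : ℝ) -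
        ((blk X.bl b).card : ℝ) / 3| ≤ l * Real.sqrt ((blk X.bl b).card : ℝ))
  have h9 : pr (fun gr => ¬ Gd X c t l t0 b gr) ≤ _ := (pr_mono fun gr hgr => by
    by_contra hcon
    push Not at hcon
    refine hgr ⟨fun T hT => ?_, hcon.2.1, hcon.2.2⟩
    exact hcon.1 T hT).trans h7
  have h10 : ((Fm X c t b).card : ℝ) * (48 * s * E) ≤ 7 * s * (48 * s * E) :=
    mul_le_mul_of_nonneg_right h3 (by positivity)
  have h11 : (6 * ((blk X.bl b).card : ℝ) + 6) * E ≤ (6 * s + 6) * E :=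
    mul_le_mul_of_nonneg_right (by linarith) hE0.le
  have h12 : s * E ≤ s ^ 2 * E := mul_le_mul_of_nonneg_right (by nlinarith) hE0.le
  have h13 : E ≤ s ^ 2 * E := by nlinarith [mul_nonneg (sub_nonneg.2 hs1) hE0.le]
  nlinarith

/-! ## the good event is good -/

lemma cxm (X : Dat W B) (gr : W → Fin 3) (A T : Finset W) :
    X.cx gr A T = eE X.Th A T - mon X.Th gr A T := cx_eq X.Th gr A T

lemma adjG {X : Dat W B} {v w : W} (h : X.Th.Adj v w) : X.G.Adj v w := h.1

lemma deg_out {X : Dat W B} {M : ℕ} {C c ζ θ : ℝ} (E : Env X M C ζ θ c) (b : B) (T : Finset W)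
    (hT : ∀ w ∈ T, ∃ b', X.bl w = some b' ∧ X.cb b ≠ X.cb b') :
    (∀ w ∈ T, ((nb X.Th w ∩ blk X.bl b).card : ℝ) ≤ (X.d : ℝ) ^ (1 - c)) ∧
      ∀ v ∈ blk X.bl b, ((nb X.Th v ∩ T).card : ℝ) ≤ (X.d : ℝ) ^ (1 - c) := by
  constructor
  · intro w hw
    obtain ⟨b', hb', hne⟩ := hT w hw
    refine le_trans ?_ (E.out w (by rw [hb']; exact Option.some_ne_none b'))
    refine Nat.cast_le.2 (card_le_card fun v hv => ?_)
    rw [mem_inter, mem_nb, mem_blk] at hv
    refine mem_filter.2 ⟨mem_nb.2 (adjG hv.1), ?_⟩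
    rw [E.cl v b hv.2, E.cl w b' hb']
    exact fun h => hne (Option.some.inj h)
  · intro v hv
    rw [mem_blk] at hv
    refine le_trans ?_ (E.out v (by rw [hv]; exact Option.some_ne_none b))
    refine Nat.cast_le.2 (card_le_card fun w hw => ?_)
    rw [mem_inter, mem_nb] at hw
    obtain ⟨b', hb', hne⟩ := hT w hw.2
    refine mem_filter.2 ⟨mem_nb.2 (adjG hw.1), ?_⟩
    rw [E.cl v b hv, E.cl w b' hb']
    exact fun h => hne (Option.some.inj h).symm

lemma eE_le {X : Dat W B} (A T : Finset W) {s : ℝ}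
    (h : ∀ v ∈ A, ((nb X.Th v ∩ T).card : ℝ) ≤ s) : eE X.Th A T ≤ A.card * s := by
  unfold eE
  refine (sum_le_card_nsmul _ _ _ h).trans (le_of_eq ?_)
  rw [nsmul_eq_mul]

lemma deg_le {X : Dat W B} {M : ℕ} {C c ζ θ : ℝ} (E : Env X M C ζ θ c) (v : W) (T : Finset W) :
    ((nb X.Th v ∩ T).card : ℝ) ≤ X.d := by
  rw [← E.reg v]
  exact_mod_cast card_le_card (inter_subset_left.trans fun w hw => mem_nb.2 (adjG (mem_nb.1 hw)))

/-- a block with an edge to `b` is tested -/
lemma blk_mem {X : Dat W B} (c t : ℝ) {b b' : B} (hne : b' ≠ b)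
    (h : 0 < eE X.Th (blk X.bl b) (blk X.bl b')) : blk X.bl b' ∈ Fm X c t b := by
  unfold Fm
  refine mem_union_right _ ?_
  have h1 : ∃ v ∈ blk X.bl b, (nb X.Th v ∩ blk X.bl b').Nonempty := by
    by_contra hcon
    push Not at hcon
    unfold eE at h
    rw [sum_eq_zero fun v hv => by rw [hcon v hv]; simp] at h
    exact lt_irrefl _ h
  obtain ⟨v, hv, w, hw⟩ := h1
  rw [mem_inter, mem_nb] at hw
  refine mem_image.2 ⟨w, mem_union_right _ (mem_filter.2 ⟨mem_univ _, v, hv, hw.1⟩), ?_⟩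
  ext u
  rw [mem_sdiff, mem_filter, mem_blk, mem_blk, mem_blk.1 hw.2]
  constructor
  · exact fun h => h.1.2
  · intro h
    refine ⟨⟨mem_univ _, h⟩, fun h' => hne ?_⟩
    rw [h] at h'
    exact Option.some.inj h'

/-- numbers -/
structure Nm (C c : ℝ) (d : ℕ) : Prop where
  d1 : 1 ≤ d
  L1 : 1 ≤ Real.log d
  y : 1000 * C * Real.log d ^ 2 ≤ (d : ℝ) ^ (c / 16)

lemma Gd_PB {X : Dat W B} {M : ℕ} {C c ζ θ t : ℝ} (E : Env X M C ζ θ c) (hC : 1 ≤ C)
    (hc0 : 0 < c) (hc1 : c ≤ 1 / 100) (hN : Nm C c X.d) (b : B) {gr : W → Fin 3}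
    (h : Gd X c t (Real.log X.d) ((X.d : ℝ) ^ (1 - c)) b gr) : PB X c t b gr := by
  obtain ⟨h1, h2, h3⟩ := h
  obtain ⟨hd, hL1, hy⟩ := hN
  set L := Real.log X.d with hL
  set d : ℝ := (X.d : ℝ) with hdd
  have hd1 : (1 : ℝ) ≤ d := by rw [hdd]; exact_mod_cast hd
  have hd0 : 0 < d := by linarith
  have hL0 : 0 ≤ L := by linarith
  have hLL : 1 ≤ L ^ 2 := one_le_pow₀ hL1
  have hLC : L ^ 2 ≤ C * L ^ 2 := by nlinarith
  obtain ⟨y, hyd⟩ : ∃ y, y = d ^ (c / 16) := ⟨_, rfl⟩
  rw [← hyd] at hy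
  have hy1 : 1000 * L ^ 2 ≤ y := by nlinarith
  have hy0 : 1 ≤ y := by nlinarith
  have hyy : y ≤ d := by
    rw [hyd]
    calc d ^ (c / 16) ≤ d ^ (1 : ℝ) := Real.rpow_le_rpow_of_exponent_le hd1 (by linarith)
      _ = d := Real.rpow_one d
  have ht0 : 0 < d ^ (1 - c) := Real.rpow_pos_of_pos hd0 _
  have hy4 : 5184 * L ^ 2 ≤ d ^ (c / 4) := by
    have e1 : d ^ (c / 4) = y ^ 4 := by
      rw [hyd, ← Real.rpow_natCast, ← Real.rpow_mul hd0.le]
      congr 1
      push_cast
      ring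
    rw [e1]
    have e2 : y * y ≤ y ^ 4 := by nlinarith [one_le_pow₀ (n := 2) hy0]
    nlinarith
  have hd34 : 5184 * L ^ 2 * d ^ (1 - c) ≤ d ^ (1 - 3 * c / 4) := by
    have e1 : d ^ (1 - 3 * c / 4) = d ^ (c / 4) * d ^ (1 - c) := by
      rw [← Real.rpow_add hd0]
      congr 1
      ring
    rw [e1]
    exact mul_le_mul_of_nonneg_right hy4 ht0.le
  have hd58 : d ^ (1 - 3 * c / 4) ≤ d ^ (1 - 5 * c / 8) :=
    Real.rpow_le_rpow_of_exponent_le hd1 (by linarith)
  have hsq : y ^ 2 ≤ Real.sqrt d := by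
    rw [hyd, ← Real.rpow_natCast, ← Real.rpow_mul hd0.le, Real.sqrt_eq_rpow]
    refine Real.rpow_le_rpow_of_exponent_le hd1 ?_
    push_cast
    linarith
  have hdev3 : (16 * L ^ 2) ^ 2 ≤ Real.sqrt d / 2 := by nlinarith
  have hblk := E.sz b
  -- degrees
  have hfar : ∀ κ, ∀ w ∈ X.far c b κ, ∃ b', X.bl w = some b' ∧ X.cb b ≠ X.cb b' := by
    intro κ w hw
    obtain ⟨b', h4, _, h5⟩ := (mem_filter.1 hw).2
    exact ⟨b', h4, h5.1⟩
  have hfm : ∀ κ, X.far c b κ ∈ Fm X c t b := by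
    intro κ
    refine mem_union_left _ (mem_union_left _ ?_)
    cases κ <;> simp
  have hfs : ∀ κ, X.fas t b κ \ blk X.bl b ∈ Fm X c t b := by
    intro κ
    refine mem_union_left _ (mem_union_right _ ?_)
    cases κ <;> simp
  refine ⟨fun a => ?_, fun κ hrow a a' => ?_, fun κ => ?_, fun b' hcb he a a' => ?_,
    fun b' hcb he => ?_, fun κ => ?_⟩
  · -- sz
    have h4 := (abs_le.1 (h3 a)).1
    have h5 := dev1 hL0 (n := ((blk X.bl b).card : ℝ)) (by linarith [hblk.1])
    show d / 8 ≤ (((blk X.bl b).filter fun v => gr v = a).card : ℝ)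
    linarith [hblk.1]
  · -- row
    have hdeg := deg_out E b (X.far c b κ) (hfar κ)
    have h4 := (abs_le.1 ((h1 _ (hfm κ)).2 hdeg.1 hdeg.2 a a')).1
    have h5 := dev2 hL0 ht0.le (e := eE X.Th (blk X.bl b) (X.far c b κ)) (by linarith)
    show eE X.Th (blk X.bl b) (X.far c b κ) / 12 ≤ X.cg gr (blk X.bl b) (X.far c b κ) a a'
    unfold Dat.cg
    linarith
  · -- row2
    have hdeg := deg_out E b (X.far c b κ) (hfar κ)
    have h4 := (h1 _ (hfm κ)).1
    have h5 : eE X.Th (blk X.bl b) (X.far c b κ) ≤ C * (d ^ (1 - c / 2)) ^ 2 := by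
      refine (eE_le _ _ hdeg.2).trans ?_
      have e1 : (d ^ (1 - c / 2)) ^ 2 = d * d ^ (1 - c) := by
        have e2 : d * d ^ (1 - c) = d ^ ((1 : ℝ) + (1 - c)) := by
          rw [Real.rpow_add hd0, Real.rpow_one]
        rw [e2, ← Real.rpow_natCast, ← Real.rpow_mul hd0.le]
        congr 1
        push_cast
        ring
      rw [e1, ← mul_assoc]
      exact mul_le_mul_of_nonneg_right hblk.2 ht0.le
    have h6 : Real.sqrt (eE X.Th (blk X.bl b) (X.far c b κ)) ≤ C * d ^ (1 - c / 2) := by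
      refine Real.sqrt_le_iff.2 ⟨by positivity, h5.trans ?_⟩
      rw [mul_pow]
      refine mul_le_mul_of_nonneg_right ?_ (by positivity)
      nlinarith
    have h7 : d ^ (1 - 2 * c / 5) = d ^ (c / 10) * d ^ (1 - c / 2) := by
      rw [← Real.rpow_add hd0]
      congr 1
      ring
    have h8 : y ≤ d ^ (c / 10) := by
      rw [hyd]
      exact Real.rpow_le_rpow_of_exponent_le hd1 (by linarith)
    have h9 : 0 < d ^ (1 - c / 2) := Real.rpow_pos_of_pos hd0 _
    show |X.cx gr (blk X.bl b) (X.far c b κ) -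
      2 / 3 * eE X.Th (blk X.bl b) (X.far c b κ)| ≤ d ^ (1 - 2 * c / 5)
    rw [cxm]
    have h10 : eE X.Th (blk X.bl b) (X.far c b κ) - mon X.Th gr (blk X.bl b) (X.far c b κ) -
        2 / 3 * eE X.Th (blk X.bl b) (X.far c b κ) =
        -(mon X.Th gr (blk X.bl b) (X.far c b κ) -
          eE X.Th (blk X.bl b) (X.far c b κ) / 3) := by ring
    rw [h10, abs_neg, h7]
    refine h4.trans ?_
    have h11 : L ^ 2 * Real.sqrt (eE X.Th (blk X.bl b) (X.far c b κ)) ≤
        L ^ 2 * (C * d ^ (1 - c / 2)) := mul_le_mul_of_nonneg_left h6 (sq_nonneg L)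
    have h12 : 3 * (C * L ^ 2) ≤ d ^ (c / 10) := by
      have : 0 ≤ C * L ^ 2 := mul_nonneg (by linarith) (sq_nonneg L)
      refine le_trans ?_ (hy.trans h8)
      linarith
    have h13 : 3 * (C * L ^ 2) * d ^ (1 - c / 2) ≤ d ^ (c / 10) * d ^ (1 - c / 2) :=
      mul_le_mul_of_nonneg_right h12 h9.le
    have h14 : L ^ 2 * (C * d ^ (1 - c / 2)) = C * L ^ 2 * d ^ (1 - c / 2) := by ring
    rw [h14] at h11
    linarith
  · -- thk
    have hne : b' ≠ b := fun hh => hcb (by rw [hh])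
    have hpos : 0 < X.e b b' := lt_of_lt_of_le (Real.rpow_pos_of_pos hd0 _) he
    have hdeg := deg_out E b (blk X.bl b') (fun w hw => ⟨b', mem_blk.1 hw, hcb⟩)
    have h4 := (abs_le.1 ((h1 _ (blk_mem c t hne hpos)).2 hdeg.1 hdeg.2 a a')).1
    have h5 := dev2 hL0 ht0.le (e := eE X.Th (blk X.bl b) (blk X.bl b')) (by
      have : X.e b b' = eE X.Th (blk X.bl b) (blk X.bl b') := rfl
      linarith)
    show eE X.Th (blk X.bl b) (blk X.bl b') / 12 ≤ X.cg gr (blk X.bl b) (blk X.bl b') a a'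
    unfold Dat.cg
    linarith
  · -- inn
    show eE X.Th (blk X.bl b) (blk X.bl b') / 4 ≤ X.cx gr (blk X.bl b) (blk X.bl b')
    have he' : Real.sqrt d ≤ eE X.Th (blk X.bl b) (blk X.bl b') := he
    have hs0 : 0 < Real.sqrt d := Real.sqrt_pos.2 hd0
    rw [cxm]
    by_cases hbb : b' = b
    · rw [hbb] at he' ⊢
      exact fin1 (sq_nonneg L) (abs_le.1 h2).2 hdev3 he' le_rfl (eE_nonneg _ _ _)
    · exact fin2 (sq_nonneg L) (abs_le.1 (h1 _ (blk_mem c t hbb (lt_of_lt_of_le hs0 he'))).1).2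
        hdev3 he' hs0
  · -- fas
    show eE X.Th (blk X.bl b) (X.fas t b κ) / 4 ≤
      X.cx gr (blk X.bl b) (X.fas t b κ) + d ^ (16 / 10 : ℝ)
    rw [cxm]
    have s1 : eE X.Th (blk X.bl b) (X.fas t b κ) =
        eE X.Th (blk X.bl b) (X.fas t b κ ∩ blk X.bl b) +
          eE X.Th (blk X.bl b) (X.fas t b κ \ blk X.bl b) := by
      rw [eE_swap, eE_swap, eE_swap]
      exact (sum_inter_add_sum_sdiff _ _ _).symm
    have s2 : mon X.Th gr (blk X.bl b) (X.fas t b κ) =
        mon X.Th gr (blk X.bl b) (X.fas t b κ ∩ blk X.bl b) +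
          mon X.Th gr (blk X.bl b) (X.fas t b κ \ blk X.bl b) :=
      (sum_inter_add_sum_sdiff _ _ _).symm
    have s3 : eE X.Th (blk X.bl b) (X.fas t b κ \ blk X.bl b) / 4 ≤
        eE X.Th (blk X.bl b) (X.fas t b κ \ blk X.bl b) -
          mon X.Th gr (blk X.bl b) (X.fas t b κ \ blk X.bl b) + d ^ (16 / 10 : ℝ) := by
      have h4 := (abs_le.1 (h1 _ (hfs κ)).1).2
      have h5 : eE X.Th (blk X.bl b) (X.fas t b κ \ blk X.bl b) ≤ C * d ^ 2 := by
        refine (eE_le _ _ (s := d) fun v _ => deg_le E v _).trans ?_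
        have := mul_le_mul_of_nonneg_right hblk.2 hd0.le
        nlinarith
      have h6 : Real.sqrt (eE X.Th (blk X.bl b) (X.fas t b κ \ blk X.bl b)) ≤ C * d := by
        refine Real.sqrt_le_iff.2 ⟨by positivity, h5.trans ?_⟩
        rw [mul_pow]
        refine mul_le_mul_of_nonneg_right ?_ (by positivity)
        nlinarith
      have h7 : y * d ≤ d ^ (16 / 10 : ℝ) := by
        rw [hyd]
        conv_lhs => rw [← Real.rpow_one d]
        rw [← Real.rpow_mul hd0.le, ← Real.rpow_add hd0]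
        exact Real.rpow_le_rpow_of_exponent_le hd1 (by linarith)
      exact fin3 hC hd0.le (sq_nonneg L) h4 h6 (by rw [← mul_assoc]; exact hy) h7
        (eE_nonneg _ _ _)
    have s4 : eE X.Th (blk X.bl b) (X.fas t b κ ∩ blk X.bl b) / 4 ≤
        eE X.Th (blk X.bl b) (X.fas t b κ ∩ blk X.bl b) -
          mon X.Th gr (blk X.bl b) (X.fas t b κ ∩ blk X.bl b) := by
      rcases (X.fas t b κ ∩ blk X.bl b).eq_empty_or_nonempty with h4 | ⟨w, hw⟩
      · rw [h4]
        have e1 : eE X.Th (blk X.bl b) ∅ = 0 := by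
          rw [eE_swap, sum_empty]
        have e2 : mon X.Th gr (blk X.bl b) ∅ = 0 := by
          unfold mon
          rw [sum_empty]
        rw [e1, e2]
        norm_num
      · rw [mem_inter] at hw
        obtain ⟨b', h5, h6, h7, h8⟩ := (mem_filter.1 hw.1).2
        have hbb : b' = b := by
          rw [mem_blk.1 hw.2] at h5
          exact (Option.some.inj h5).symm
        rw [hbb] at h6 h7 h8
        have h9 : X.fas t b κ ∩ blk X.bl b = blk X.bl b := by
          refine inter_eq_right.2 fun u hu => ?_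
          exact mem_filter.2 ⟨mem_univ _, b, mem_blk.1 hu, h6, h7, h8⟩
        rw [h9]
        have h10 : d ≤ eE X.Th (blk X.bl b) (blk X.bl b) := h8 rfl
        have h11 : Real.sqrt d ≤ d := by
          refine Real.sqrt_le_iff.2 ⟨hd0.le, ?_⟩
          rw [sq]
          exact le_mul_of_one_le_left hd0.le hd1
        exact fin1 (sq_nonneg L) (abs_le.1 h2).2 hdev3 h11 h10 (eE_nonneg _ _ _)
    rw [s1, s2]
    linarith

end main

/-! ## GRP -/

/-- **GRP** -/
theorem stmt_GRP : Stmt_GRP.{u} := by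
  intro M C c hC hc0 hc1
  obtain ⟨d1, hd1⟩ := lll3.{u} 7
  obtain ⟨d2, hd2⟩ := log_small (1000 * C) (c / 16) (by positivity)
  refine ⟨d1 + d2 + ⌈2 * C⌉₊ + 400 + 3, fun {W B} _ _ X t hd E => ?_⟩
  have hdn : 400 ≤ X.d := by omega
  have hdr : (400 : ℝ) ≤ X.d := by exact_mod_cast hdn
  have hdC : 2 * C ≤ X.d := (Nat.le_ceil _).trans (by exact_mod_cast (by omega))
  have hL1 : 1 ≤ Real.log X.d := by
    rw [Real.le_log_iff_exp_le (by linarith)]
    have := Real.exp_one_lt_three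
    linarith
  have hN : Nm C c X.d := ⟨by omega, hL1, hd2 X.d (by omega)⟩
  have hd0 : (0 : ℝ) < X.d := by linarith
  -- sizes of the scopes
  have hNb : ∀ b, ((Nb X b).card : ℝ) ≤ (X.d : ℝ) ^ 3 := by
    intro b
    have h1 : (Nb X b).card ≤ (blk X.bl b).card + (blk X.bl b).card * X.d := by
      refine (card_union_le _ _).trans (Nat.add_le_add_left ?_ _)
      have h2 : (univ.filter fun w => ∃ v ∈ blk X.bl b, X.Th.Adj v w) ⊆
          (blk X.bl b).biUnion fun v => nb X.G v := by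
        intro w hw
        obtain ⟨v, hv, hvw⟩ := (mem_filter.1 hw).2
        exact mem_biUnion.2 ⟨v, hv, mem_nb.2 (adjG hvw)⟩
      refine (card_le_card h2).trans (card_biUnion_le.trans ?_)
      rw [sum_congr rfl fun v _ => E.reg v, sum_const, smul_eq_mul]
    have h2 : ((Nb X b).card : ℝ) ≤ ((blk X.bl b).card : ℝ) + ((blk X.bl b).card : ℝ) * X.d := by
      exact_mod_cast h1
    have h3 := (E.sz b).2
    have h4 : ((blk X.bl b).card : ℝ) * X.d ≤ C * X.d * X.d :=
      mul_le_mul_of_nonneg_right h3 hd0.le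
    have h5 : 2 * C * ((X.d : ℝ) * X.d) ≤ X.d * ((X.d : ℝ) * X.d) :=
      mul_le_mul_of_nonneg_right hdC (by positivity)
    nlinarith
  -- the events
  let P : W ⊕ B → (W → Fin 3) → Prop := fun r gr => match r with
    | Sum.inl x => X.bl x = none → (X.d : ℝ) ^ (c / 4) ≤ ((X.sc c x).card : ℝ) → ∀ a,
      ((X.sc c x).card : ℝ) / 4 ≤ (((X.sc c x).filter fun v => gr v = a).card : ℝ)
    | Sum.inr b => PB X c t b gr
  let Sc : W ⊕ B → Finset W := fun r => match r with
    | Sum.inl x => X.sc c x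
    | Sum.inr b => Nb X b
  have hsc : ∀ x, X.sc c x ⊆ nb X.G x := fun x => filter_subset _ _
  have hscc : ∀ x, ((X.sc c x).card : ℝ) ≤ X.d := by
    intro x
    rw [← E.reg x]
    exact_mod_cast card_le_card (hsc x)
  have hpow : ∀ k : ℕ, k ≤ 7 → (X.d : ℝ) ^ k ≤ (X.d : ℝ) ^ 7 := fun k hk =>
    pow_le_pow_right₀ (by linarith) hk
  have H1 : ∀ r, DepOnI (Sc r) (P r) := by
    rintro (x | b)
    · intro gr gr' h
      have h1 : ∀ a, (X.sc c x).filter (fun v => gr v = a) =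
          (X.sc c x).filter fun v => gr' v = a := fun a => filter_congr fun v hv => by
        rw [h v hv]
      show (X.bl x = none → _) = (X.bl x = none → _)
      simp only [h1]
    · exact PB_dep X c t b
  have H2 : ∀ r, ((Sc r).card : ℝ) ≤ (X.d : ℝ) ^ 7 := by
    rintro (x | b)
    · refine (hscc x).trans ?_
      calc (X.d : ℝ) = (X.d : ℝ) ^ 1 := (pow_one _).symm
        _ ≤ _ := hpow 1 (by norm_num)
    · exact (hNb b).trans (hpow 3 (by norm_num))
  have H3 : ∀ y, ((univ.filter fun r => y ∈ Sc r).card : ℝ) ≤ (X.d : ℝ) ^ 7 := by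
    intro y
    have h1 : (univ.filter fun r => y ∈ Sc r) ⊆
        (nb X.G y).image Sum.inl ∪ (univ.filter fun b => y ∈ Nb X b).image Sum.inr := by
      rintro (x | b) hr
      · refine mem_union_left _ (mem_image_of_mem _ ?_)
        have := hsc x (mem_filter.1 hr).2
        rw [mem_nb] at this ⊢
        exact this.symm
      · exact mem_union_right _ (mem_image_of_mem _ (mem_filter.2 ⟨mem_univ _,
          (mem_filter.1 hr).2⟩))
    have h2 : (univ.filter fun b => y ∈ Nb X b).card ≤ X.d + 1 := by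
      have h3 : (univ.filter fun b => y ∈ Nb X b).image (some : B → Option B) ⊆
          (insert y (nb X.G y)).image X.bl := by
        intro o ho
        obtain ⟨b, hb, rfl⟩ := mem_image.1 ho
        rcases mem_union.1 (mem_filter.1 hb).2 with h4 | h4
        · exact mem_image.2 ⟨y, mem_insert_self _ _, mem_blk.1 h4⟩
        · obtain ⟨v, hv, hvy⟩ := (mem_filter.1 h4).2
          exact mem_image.2 ⟨v, mem_insert_of_mem (mem_nb.2 (adjG hvy).symm), mem_blk.1 hv⟩
      rw [← card_image_of_injective _ (Option.some_injective B)]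
      refine (card_le_card h3).trans (card_image_le.trans ((card_insert_le _ _).trans ?_))
      rw [E.reg y]
    have h3 : (univ.filter fun r => y ∈ Sc r).card ≤ X.d + (X.d + 1) := by
      refine (card_le_card h1).trans ((card_union_le _ _).trans (Nat.add_le_add ?_ ?_))
      · exact card_image_le.trans (E.reg y).le
      · exact card_image_le.trans h2
    have h4 : ((univ.filter fun r => y ∈ Sc r).card : ℝ) ≤ X.d + (X.d + 1) := by exact_mod_cast h3
    refine h4.trans (le_trans ?_ (hpow 2 (by norm_num)))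
    nlinarith
  have H4 : ∀ r, pr (fun f : W → Fin 3 => ¬ P r f) ≤
      (X.d : ℝ) ^ 7 * Real.exp (-(Real.log X.d ^ 2 / 2)) := by
    have hE0 : 0 < Real.exp (-(Real.log X.d ^ 2 / 2)) := Real.exp_pos _
    rintro (x | b)
    · -- hub
      have h1 := one (X.sc c x) (l := Real.log X.d) (by linarith)
      by_cases hx : (X.d : ℝ) ^ (c / 4) ≤ ((X.sc c x).card : ℝ)
      · have h0 : pr (fun gr : W → Fin 3 => ¬ P (Sum.inl x) gr) ≤
            pr (fun gr : W → Fin 3 => ¬ ∀ a, |(((X.sc c x).filter fun v => gr v = a).card : ℝ) -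
              ((X.sc c x).card : ℝ) / 3| ≤ Real.log X.d * Real.sqrt ((X.sc c x).card : ℝ)) := by
          refine pr_mono fun gr hgr hcon => ?_
          refine hgr ?_
          show X.bl x = none → (X.d : ℝ) ^ (c / 4) ≤ ((X.sc c x).card : ℝ) → ∀ a,
            ((X.sc c x).card : ℝ) / 4 ≤ (((X.sc c x).filter fun v => gr v = a).card : ℝ)
          intro _ _ a
          have h2 := (abs_le.1 (hcon a)).1
          have h3 := dev1 (L := Real.log X.d) (n := ((X.sc c x).card : ℝ)) (by linarith) (by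
            refine le_trans ?_ hx
            have h4 := hN.y
            have h5 : (X.d : ℝ) ^ (c / 16) ≤ (X.d : ℝ) ^ (c / 4) :=
              Real.rpow_le_rpow_of_exponent_le (by linarith) (by linarith)
            have h6 : Real.log X.d ^ 2 ≤ C * Real.log X.d ^ 2 :=
              le_mul_of_one_le_left (sq_nonneg _) hC
            have h7 := sq_nonneg (Real.log X.d)
            rw [mul_assoc] at h4
            linarith)
          linarith
        refine h0.trans (h1.trans ?_)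
        refine mul_le_mul_of_nonneg_right ?_ hE0.le
        refine le_trans ?_ (hpow 1 (by norm_num))
        rw [pow_one]
        linarith
      · rw [pr_zero]
        · positivity
        · intro gr hgr
          exact hgr fun _ h2 => absurd h2 hx
    · have h1 := Gd_pr X c t (l := Real.log X.d) (t0 := (X.d : ℝ) ^ (1 - c)) (by linarith)
        (Real.rpow_nonneg hd0.le _) b (hNb b) (one_le_pow₀ (by linarith))
      have h0 : pr (fun gr : W → Fin 3 => ¬ P (Sum.inr b) gr) ≤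
          pr (fun gr => ¬ Gd X c t (Real.log X.d) ((X.d : ℝ) ^ (1 - c)) b gr) :=
        pr_mono fun gr hgr hcon => hgr (Gd_PB E hC hc0 hc1 hN b hcon)
      refine h0.trans (h1.trans ?_)
      refine mul_le_mul_of_nonneg_right ?_ hE0.le
      rw [← pow_mul]
      calc 400 * (X.d : ℝ) ^ (3 * 2) ≤ X.d * (X.d : ℝ) ^ (3 * 2) :=
            mul_le_mul_of_nonneg_right hdr (by positivity)
        _ = (X.d : ℝ) ^ 7 := by ring
  obtain ⟨gr, hgr⟩ := hd1 X.d (by omega) Sc P H1 H2 H3 H4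
  refine ⟨gr, ⟨fun b a => (hgr (Sum.inr b)).1 a, fun x h1 h2 a => hgr (Sum.inl x) h1 h2 a,
    fun b κ => (hgr (Sum.inr b)).2.1 κ, fun b κ => (hgr (Sum.inr b)).2.2.1 κ,
    fun b b' => (hgr (Sum.inr b)).2.2.2.1 b', fun b b' => (hgr (Sum.inr b)).2.2.2.2.1 b'⟩,
    fun b κ => (hgr (Sum.inr b)).2.2.2.2.2 κ⟩

end Pool.Agent.Work.MP_db9399_ts.helper42
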